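import Pool.Agent.AQB.Defs

/-!
# An invariant mean from the fixed point property for compact convex sets of functions
-/

set_option autoImplicit false

universe u

open Filter Topology

namespace Pool.Agent.helper48.MeanOfFixed

open Pool.Agent.AQB

variable {G : Type u} [Group G]

/-- the bounded functions on `G` -/
def BF (G : Type u) : Type u := {f : G → ℝ // Bdd f}

/-- the translate of a bounded function: `(g f) x = f (g⁻¹ x)` -/
instance : MulAction G (BF G) where
  smul g f := ⟨fun x => f.1 (g⁻¹ * x), by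
    obtain ⟨c, hc⟩ := f.2
    exact ⟨c, fun x => hc _⟩⟩
  one_smul f := by
    apply Subtype.ext
    funext x
    show f.1 (1⁻¹ * x) = f.1 x
    rw [inv_one, one_mul]
  mul_smul g h f := by
    apply Subtype.ext
    funext x
    show f.1 ((g * h)⁻¹ * x) = f.1 (h⁻¹ * (g⁻¹ * x))
    rw [mul_inv_rev, mul_assoc]

theorem smul_val (g : G) (f : BF G) (x : G) : (g • f).1 x = f.1 (g⁻¹ * x) := rfl

omit [Group G] in
theorem bdd_add {f f' : G → ℝ} (h : Bdd f) (h' : Bdd f') : Bdd (f + f') := by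
  obtain ⟨c, hc⟩ := h
  obtain ⟨c', hc'⟩ := h'
  exact ⟨c + c', fun x => (abs_add_le _ _).trans (add_le_add (hc x) (hc' x))⟩

omit [Group G] in
theorem bdd_smul (a : ℝ) {f : G → ℝ} (h : Bdd f) : Bdd (a • f) := by
  obtain ⟨c, hc⟩ := h
  refine ⟨|a| * c, fun x => ?_⟩
  show |a * f x| ≤ _
  rw [abs_mul]
  exact mul_le_mul_of_nonneg_left (hc x) (abs_nonneg a)

omit [Group G] in
theorem bdd_one : Bdd (1 : G → ℝ) := ⟨1, fun x => by simp⟩

/-- the set of means: positive normalised linear functionals on the bounded functions -/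
def MSet (G : Type u) [Group G] : Set (BF G → ℝ) :=
  {m | (∀ f f' : BF G, m ⟨f.1 + f'.1, bdd_add f.2 f'.2⟩ = m f + m f') ∧
    (∀ (a : ℝ) (f : BF G), m ⟨a • f.1, bdd_smul a f.2⟩ = a * m f) ∧
    (∀ f : BF G, (∀ x, 0 ≤ f.1 x) → 0 ≤ m f) ∧ m ⟨1, bdd_one⟩ = 1}

theorem closed : IsClosed (MSet G) := by
  have e : MSet G = (⋂ (f : BF G) (f' : BF G), {m | m ⟨f.1 + f'.1, bdd_add f.2 f'.2⟩ = m f + m f'}) ∩
      ((⋂ (a : ℝ) (f : BF G), {m | m ⟨a • f.1, bdd_smul a f.2⟩ = a * m f}) ∩
      ((⋂ (f : BF G) (_ : ∀ x, 0 ≤ f.1 x), {m | 0 ≤ m f}) ∩ {m | m ⟨1, bdd_one⟩ = 1})) := by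
    ext m
    simp only [MSet, Set.mem_ofPred_eq, Set.mem_inter_iff, Set.mem_iInter]
  rw [e]
  refine IsClosed.inter ?_ (IsClosed.inter ?_ (IsClosed.inter ?_ ?_))
  · exact isClosed_iInter fun f => isClosed_iInter fun f' =>
      isClosed_eq (continuous_apply _) (by fun_prop)
  · exact isClosed_iInter fun a => isClosed_iInter fun f =>
      isClosed_eq (continuous_apply _) (by fun_prop)
  · exact isClosed_iInter fun f => isClosed_iInter fun _ =>
      isClosed_le continuous_const (continuous_apply _)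
  · exact isClosed_eq (continuous_apply _) continuous_const

/-- a bound of a bounded function -/
noncomputable def bnd (f : BF G) : ℝ := f.2.choose

omit [Group G] in
theorem bnd_spec (f : BF G) (x : G) : |f.1 x| ≤ bnd f := f.2.choose_spec x

theorem mem_Icc {m : BF G → ℝ} (hm : m ∈ MSet G) (f : BF G) : m f ∈ Set.Icc (-bnd f) (bnd f) := by
  obtain ⟨h1, h2, h3, h4⟩ := hm
  -- `c • 1 + a • f` with `a = 1` and `a = -1`
  have key : ∀ a : ℝ, |a| = 1 → 0 ≤ bnd f + a * m f := by
    intro a ha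
    have h5 := h3 ⟨(bnd f) • (1 : G → ℝ) + a • f.1, bdd_add (bdd_smul _ bdd_one) (bdd_smul a f.2)⟩
      (fun x => by
        show 0 ≤ bnd f * 1 + a * f.1 x
        have h6 := bnd_spec f x
        have h7 : |a * f.1 x| ≤ bnd f := by rw [abs_mul, ha, one_mul]; exact h6
        have h8 := (abs_le.1 h7).1
        linarith)
    have h6 := h1 ⟨(bnd f) • (1 : G → ℝ), bdd_smul _ bdd_one⟩ ⟨a • f.1, bdd_smul a f.2⟩
    have h7 := h2 (bnd f) ⟨1, bdd_one⟩
    have h8 := h2 a f
    simp only at h6 h7 h8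
    rw [h6, h7, h8, h4, mul_one] at h5
    exact h5
  have k1 := key 1 (by simp)
  have k2 := key (-1) (by simp)
  constructor <;> linarith

theorem compact : IsCompact (MSet G) := by
  have h : MSet G ⊆ Set.pi Set.univ fun f : BF G => Set.Icc (-bnd f) (bnd f) := by
    intro m hm f _
    exact mem_Icc hm f
  exact (isCompact_univ_pi fun f => isCompact_Icc).of_isClosed_subset closed h

theorem convex : Convex ℝ (MSet G) := by
  rintro m ⟨h1, h2, h3, h4⟩ m' ⟨h1', h2', h3', h4'⟩ s t hs ht hst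
  refine ⟨fun f f' => ?_, fun a f => ?_, fun f hf => ?_, ?_⟩
  · show s * m _ + t * m' _ = s * m f + t * m' f + (s * m f' + t * m' f')
    rw [h1, h1']; ring
  · show s * m _ + t * m' _ = a * (s * m f + t * m' f)
    rw [h2, h2']; ring
  · show 0 ≤ s * m f + t * m' f
    have := h3 f hf
    have := h3' f hf
    positivity
  · show s * m _ + t * m' _ = 1
    rw [h4, h4', mul_one, mul_one, hst]

theorem nonempty : (MSet G).Nonempty :=
  ⟨fun f => f.1 1, fun _ _ => rfl, fun _ _ => rfl, fun _ hf => hf 1, rfl⟩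

theorem invariant (g : G) {m : BF G → ℝ} (hm : m ∈ MSet G) :
    (fun f => m (g⁻¹ • f)) ∈ MSet G := by
  obtain ⟨h1, h2, h3, h4⟩ := hm
  refine ⟨fun f f' => ?_, fun a f => ?_, fun f hf => ?_, ?_⟩
  · exact h1 (g⁻¹ • f) (g⁻¹ • f')
  · exact h2 a (g⁻¹ • f)
  · exact h3 (g⁻¹ • f) fun x => hf _
  · exact h4

/-- **Corollary.** If `G` has a fixed point in every compact convex nonempty invariant set of
functions on a `G`-set, then `G` has a left invariant mean. -/
theorem amen_of_fixed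
    (h : ∀ (I : Type u) [MulAction G I] (Q : Set (I → ℝ)), IsCompact Q → Convex ℝ Q →
      Q.Nonempty → (∀ g : G, ∀ x ∈ Q, (fun i => x (g⁻¹ • i)) ∈ Q) →
      ∃ x ∈ Q, ∀ g : G, (fun i => x (g⁻¹ • i)) = x) : Amen G := by
  classical
  obtain ⟨m, ⟨h1, h2, h3, h4⟩, hinv⟩ := h (BF G) (MSet G) compact convex nonempty
    (fun g x hx => invariant g hx)
  refine ⟨{ m := fun f => if hf : Bdd f then m ⟨f, hf⟩ else 0
            add := fun f f' hf hf' => ?_
            smul := fun a f hf => ?_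
            nonneg := fun f hf hf0 => ?_
            one := ?_
            left := fun g f hf => ?_ }⟩
  · simp only [dif_pos hf, dif_pos hf', dif_pos (bdd_add hf hf')]
    exact h1 ⟨f, hf⟩ ⟨f', hf'⟩
  · simp only [dif_pos hf, dif_pos (bdd_smul a hf)]
    exact h2 a ⟨f, hf⟩
  · simp only [dif_pos hf]
    exact h3 ⟨f, hf⟩ hf0
  · simp only [dif_pos bdd_one]
    exact h4
  · have hf' : Bdd (fun x => f (g⁻¹ * x)) := by
      obtain ⟨c, hc⟩ := hf
      exact ⟨c, fun x => hc _⟩
    simp only [dif_pos hf, dif_pos hf']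
    have h5 := congrFun (hinv g⁻¹) ⟨f, hf⟩
    simp only [inv_inv] at h5
    exact h5

end Pool.Agent.helper48.MeanOfFixed
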