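import Mathlib

/-!
# The Markov-Kakutani fixed point theorem, and fixed points of almost abelian groups
-/

set_option autoImplicit false

open Filter Topology Pointwise

namespace Pool.Agent.helper48.MK

variable {E : Type*} [AddCommGroup E] [Module ℝ E] [TopologicalSpace E] [IsTopologicalAddGroup E]
  [ContinuousSMul ℝ E] [T2Space E]

/-- One continuous linear map of a compact convex nonempty set has a fixed point. -/
theorem single {Q : Set E} (hQ : IsCompact Q) (hc : Convex ℝ Q) (hne : Q.Nonempty)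
    (T : E →L[ℝ] E) (hT : ∀ x ∈ Q, T x ∈ Q) : ∃ x ∈ Q, T x = x := by
  obtain ⟨x0, hx0⟩ := hne
  let p : ℕ → E := fun k => (T^[k]) x0
  have hp : ∀ k, p k ∈ Q := by
    intro k
    induction k with
    | zero => exact hx0
    | succ k ih =>
      show (T^[k + 1]) x0 ∈ Q
      rw [Function.iterate_succ_apply']
      exact hT _ ih
  have hpT : ∀ k, T (p k) = p (k + 1) := by
    intro k
    show T ((T^[k]) x0) = (T^[k + 1]) x0
    rw [Function.iterate_succ_apply']
  let u : ℕ → E := fun n => ((n : ℝ) + 1)⁻¹ • ∑ k ∈ Finset.range (n + 1), p k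
  have hu : ∀ n, u n ∈ Q := by
    intro n
    show ((n : ℝ) + 1)⁻¹ • ∑ k ∈ Finset.range (n + 1), p k ∈ Q
    rw [Finset.smul_sum]
    refine hc.sum_mem (fun i _ => by positivity) ?_ (fun i _ => hp i)
    rw [Finset.sum_const, Finset.card_range, nsmul_eq_mul]
    push_cast
    exact mul_inv_cancel₀ (by positivity)
  let 𝒰 : Ultrafilter ℕ := hyperfilter ℕ
  have h𝒰 : (𝒰 : Filter ℕ) ≤ atTop := Nat.hyperfilter_le_atTop
  obtain ⟨x, hx, hxu⟩ := hQ.ultrafilter_le_nhds (𝒰.map u)
    (by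
      rw [le_principal_iff, Ultrafilter.mem_coe, Ultrafilter.mem_map]
      exact Filter.univ_mem' hu)
  have hxu' : Tendsto u (𝒰 : Filter ℕ) (𝓝 x) := hxu
  refine ⟨x, hx, ?_⟩
  have h1 : Tendsto (fun n => T (u n) - u n) (𝒰 : Filter ℕ) (𝓝 (T x - x)) :=
    ((T.continuous.tendsto x).comp hxu').sub hxu'
  have h2 : ∀ n, T (u n) - u n = ((n : ℝ) + 1)⁻¹ • (p (n + 1) - p 0) := by
    intro n
    show T (((n : ℝ) + 1)⁻¹ • ∑ k ∈ Finset.range (n + 1), p k) -
      ((n : ℝ) + 1)⁻¹ • ∑ k ∈ Finset.range (n + 1), p k = _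
    rw [map_smul, ← smul_sub, map_sum, ← Finset.sum_sub_distrib]
    congr 1
    rw [← Finset.sum_range_sub]
    exact Finset.sum_congr rfl fun k _ => by rw [hpT]
  have hb : Bornology.IsVonNBounded ℝ (Q - Q) := by
    have : IsCompact (Q - Q) := by
      rw [sub_eq_add_neg]
      exact hQ.add hQ.neg
    exact this.isVonNBounded ℝ
  have h3 : Tendsto (fun n : ℕ => ((n : ℝ) + 1)⁻¹ • (p (n + 1) - p 0)) atTop (𝓝 0) := by
    refine hb.smul_tendsto_zero (ε := fun n : ℕ => ((n : ℝ) + 1)⁻¹)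
      (x := fun n => p (n + 1) - p 0) (Eventually.of_forall fun n => ?_) ?_
    · exact Set.sub_mem_sub (hp _) (hp _)
    · exact (tendsto_natCast_atTop_atTop.atTop_add tendsto_const_nhds).inv_tendsto_atTop
  have h4 : Tendsto (fun n => T (u n) - u n) (𝒰 : Filter ℕ) (𝓝 0) := by
    refine Tendsto.congr (fun n => (h2 n).symm) (h3.mono_left h𝒰)
  exact sub_eq_zero.1 (tendsto_nhds_unique h1 h4)

/-- **Markov-Kakutani.** Continuous linear maps which commute on a compact convex nonempty set `Q`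
and map `Q` into `Q` have a common fixed point in `Q`. -/
theorem family {ι : Type*} {Q : Set E} (hQ : IsCompact Q) (hc : Convex ℝ Q) (hne : Q.Nonempty)
    (T : ι → E →L[ℝ] E) (hT : ∀ i, ∀ x ∈ Q, T i x ∈ Q)
    (hcomm : ∀ i j, ∀ x ∈ Q, T i (T j x) = T j (T i x)) : ∃ x ∈ Q, ∀ i, T i x = x := by
  classical
  have hfin : ∀ F : Finset ι, (Q ∩ ⋂ i ∈ F, {x | T i x = x}).Nonempty := by
    intro F
    induction F using Finset.induction_on with
    | empty => simpa using hne
    | insert a F ha ih =>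
      set P : Set E := Q ∩ ⋂ i ∈ F, {x | T i x = x} with hP
      have hclosed : IsClosed (⋂ i ∈ F, {x | T i x = x}) :=
        isClosed_biInter fun i _ => isClosed_eq (T i).continuous continuous_id
      have hPc : IsCompact P := hQ.inter_right hclosed
      have hPconv : Convex ℝ P := by
        refine hc.inter (convex_iInter₂ fun i _ => ?_)
        intro x hx y hy s t _ _ _
        have hx' : T i x = x := hx
        have hy' : T i y = y := hy
        show T i (s • x + t • y) = s • x + t • y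
        rw [map_add, map_smul, map_smul, hx', hy']
      obtain ⟨x, hx, hxa⟩ := single hPc hPconv ih (T a) (by
        intro x hx
        refine ⟨hT a x hx.1, ?_⟩
        rw [Set.mem_iInter₂]
        intro i hi
        have h1 := hx.2
        rw [Set.mem_iInter₂] at h1
        have h2 : T i x = x := h1 i hi
        show T i (T a x) = T a x
        rw [hcomm i a x hx.1, h2])
      refine ⟨x, hx.1, ?_⟩
      rw [Set.mem_iInter₂]
      intro i hi
      rcases Finset.mem_insert.1 hi with rfl | hi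
      · exact hxa
      · have h1 := hx.2
        rw [Set.mem_iInter₂] at h1
        exact h1 i hi
  obtain ⟨x, hx, hx'⟩ := hQ.inter_iInter_nonempty (fun i => {x | T i x = x})
    (fun i => isClosed_eq (T i).continuous continuous_id) hfin
  exact ⟨x, hx, fun i => Set.mem_iInter.1 hx' i⟩

omit [ContinuousSMul ℝ E] [T2Space E] in
/-- If a subgroup `K` of finite index fixes a point of the convex invariant set `Q`, then the whole
group does. -/
theorem average {H : Type*} [Group H] {Q : Set E} (hc : Convex ℝ Q)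
    (ρ : H →* (E →L[ℝ] E)) (hρ : ∀ h, ∀ x ∈ Q, ρ h x ∈ Q) (K : Subgroup H) [K.FiniteIndex]
    (x0 : E) (hx0 : x0 ∈ Q) (hK : ∀ k ∈ K, ρ k x0 = x0) : ∃ x ∈ Q, ∀ h, ρ h x = x := by
  classical
  have : Fintype (H ⧸ K) := Fintype.ofFinite _
  let f : H ⧸ K → E := Quotient.lift (fun h => ρ h x0) (by
    intro a b hab
    have h1 : a⁻¹ * b ∈ K := QuotientGroup.leftRel_apply.1 hab
    have h2 : b = a * (a⁻¹ * b) := by group
    show ρ a x0 = ρ b x0
    conv_rhs => rw [h2, map_mul]
    rw [mul_apply_eq_comp, hK _ h1])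
  have hf : ∀ h : H, f (QuotientGroup.mk h) = ρ h x0 := fun h => rfl
  have hfQ : ∀ q, f q ∈ Q := by
    intro q
    obtain ⟨h, rfl⟩ := QuotientGroup.mk_surjective q
    rw [hf]
    exact hρ h _ hx0
  have hfm : ∀ (h : H) (q : H ⧸ K), ρ h (f q) = f (h • q) := by
    intro h q
    obtain ⟨k, rfl⟩ := QuotientGroup.mk_surjective q
    rw [hf, ← mul_apply_eq_comp, ← map_mul]
    rfl
  have hcard : 0 < Fintype.card (H ⧸ K) := Fintype.card_pos
  refine ⟨(Fintype.card (H ⧸ K) : ℝ)⁻¹ • ∑ q, f q, ?_, fun h => ?_⟩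
  · rw [Finset.smul_sum]
    refine hc.sum_mem (fun i _ => by positivity) ?_ (fun i _ => hfQ i)
    rw [Finset.sum_const, Finset.card_univ, nsmul_eq_mul]
    exact mul_inv_cancel₀ (by positivity)
  · rw [map_smul, map_sum]
    congr 1
    rw [Finset.sum_congr rfl fun q _ => hfm h q]
    exact Fintype.sum_equiv (MulAction.toPerm h) _ _ fun q => rfl

/-- A set of pairwise commuting elements of a group has a common fixed point in a compact convex
nonempty set. -/
theorem commuting {G : Type*} [Group G] {Q : Set E} (hQ : IsCompact Q) (hc : Convex ℝ Q)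
    (hne : Q.Nonempty) (ρ : G →* (E →L[ℝ] E)) (S : Set G) (hS : ∀ s ∈ S, ∀ x ∈ Q, ρ s x ∈ Q)
    (hcomm : ∀ s ∈ S, ∀ t ∈ S, s * t = t * s) : ∃ x ∈ Q, ∀ s ∈ S, ρ s x = x := by
  obtain ⟨x, hx, h⟩ := family hQ hc hne (fun s : S => ρ s) (fun s x hx => hS s s.2 x hx)
    (fun s t x _ => by
      rw [← mul_apply_eq_comp, ← mul_apply_eq_comp, ← map_mul, ← map_mul,
        hcomm s s.2 t t.2])
  exact ⟨x, hx, fun s hs => h ⟨s, hs⟩⟩

/-- An almost abelian subgroup `A` which preserves a compact convex nonempty set `Q` has a fixed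
point in `Q`. -/
theorem almostAbelian {G : Type*} [Group G] {Q : Set E} (hQ : IsCompact Q) (hc : Convex ℝ Q)
    (hne : Q.Nonempty) (ρ : G →* (E →L[ℝ] E)) (A A₀ : Subgroup G)
    (hA : ∀ a ∈ A, ∀ x ∈ Q, ρ a x ∈ Q) (hA₀ : A₀ ≤ A) (hfin : (A₀.subgroupOf A).FiniteIndex)
    (hcomm : ∀ s ∈ A₀, ∀ t ∈ A₀, s * t = t * s) : ∃ x ∈ Q, ∀ a ∈ A, ρ a x = x := by
  obtain ⟨x0, hx0, h0⟩ := commuting hQ hc hne ρ (A₀ : Set G)
    (fun s hs x hx => hA s (hA₀ hs) x hx) hcomm
  obtain ⟨x, hx, h⟩ := average (H := A) hc (ρ.comp A.subtype) (fun a x hx => hA a a.2 x hx)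
    (A₀.subgroupOf A) x0 hx0 (fun k hk => h0 k (Subgroup.mem_subgroupOf.1 hk))
  exact ⟨x, hx, fun a ha => h ⟨a, ha⟩⟩

section perm

variable {G I : Type*} [Group G] [MulAction G I]

/-- The action `(g x) i = x (g⁻¹ • i)` of `G` on `I → ℝ` by continuous linear maps. -/
def perm : G →* ((I → ℝ) →L[ℝ] (I → ℝ)) where
  toFun g := ContinuousLinearMap.pi fun i => ContinuousLinearMap.proj (g⁻¹ • i)
  map_one' := by
    ext x i
    simp
  map_mul' g h := by
    ext x i
    simp [mul_smul]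

@[simp] theorem perm_apply (g : G) (x : I → ℝ) (i : I) : perm g x i = x (g⁻¹ • i) := rfl

/-- A set `S` of pairwise commuting elements of `G` which preserves a compact convex nonempty set `Q`
of functions has a common fixed point in `Q`. -/
theorem commuting_fun {Q : Set (I → ℝ)} (hQ : IsCompact Q) (hc : Convex ℝ Q) (hne : Q.Nonempty)
    (S : Set G) (hS : ∀ s ∈ S, ∀ x ∈ Q, (fun i => x (s⁻¹ • i)) ∈ Q)
    (hcomm : ∀ s ∈ S, ∀ t ∈ S, s * t = t * s) :
    ∃ x ∈ Q, ∀ s ∈ S, (fun i => x (s⁻¹ • i)) = x :=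
  commuting hQ hc hne perm S hS hcomm

/-- An almost abelian subgroup `A` of `G` which preserves a compact convex nonempty set `Q` of
functions has a fixed point in `Q`. -/
theorem almostAbelian_fun {Q : Set (I → ℝ)} (hQ : IsCompact Q) (hc : Convex ℝ Q)
    (hne : Q.Nonempty) (A A₀ : Subgroup G) (hA : ∀ a ∈ A, ∀ x ∈ Q, (fun i => x (a⁻¹ • i)) ∈ Q)
    (hA₀ : A₀ ≤ A) (hfin : (A₀.subgroupOf A).FiniteIndex)
    (hcomm : ∀ s ∈ A₀, ∀ t ∈ A₀, s * t = t * s) :
    ∃ x ∈ Q, ∀ a ∈ A, (fun i => x (a⁻¹ • i)) = x :=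
  almostAbelian hQ hc hne perm A A₀ hA hA₀ hfin hcomm

end perm

end Pool.Agent.helper48.MK
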